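import Pool.Agent.Helper10.AQ.FinE

/-!
# Filliman's second conjecture for every `k` and all large `n`

Let `Δ` be a regular simplex with `n + 1` vertices and edge length `√2` in an `n`-dimensional Euclidean space. We show
that for all `k ≥ 1` and all `n ≥ exp (10³⁴ (k + 1)²⁰)` no orthogonal projection of `Δ` to a subspace of
dimension `n - k` has a larger volume than the projection `T^*` to the span `W` of the differences inside the blocks
of a balanced partition of the vertices into `k + 1` blocks. So Filliman's second conjecture holds, for each `k`, for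
all but finitely many `n`, without a divisibility condition.

The proof. Let `N = n + 1`, `K = k + 1`, let `x_1, …, x_N` in dimension `m = N - K` be the projections of the centred
vertices (a Parseval frame), and `u_1, …, u_N` in `ℝ^K` a complementary Parseval frame. Then `m!` times the volume is
`Z = ∑ |det u_T|`, over the `K`-sets `T` (the complements of the facets of the polytope) such that `s = ∑ u_j` is
in the cone of `u_T` (after a small perturbation of `s`). Let `p_T = |det u_T| / Z`, and let `q_j` be the probability
that `T` contains `j`. A product measure on `ℝ^N` with densities `g_j` and tails `G_j = Φ(· / √q_j) ^ q_j`, where `Φ` is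
the Gaussian tail, gives `log Z ≤ (1/2) ∑ q_j log (1 / q_j) ≤ (K/2) log (N/K)` (helper58, `MaximalDivisible`), by the
inequality between the arithmetic and the geometric mean. The conjectured maximum `√bal` satisfies
`log (N/K)^K - log bal ≤ K/(8 ℓ²)` with `ℓ = ⌊N/K⌋`, which is of the order `1/N²` for fixed `K`. Suppose that
`Z ≥ √bal`. Then the terms of almost all `T` must agree, up to a very small error, with their geometric mean; as the
marginals `q_j` are all close to `K/N`, which is much larger than `1/N²`, for each `j` there is such a `T` which
contains `j` (`S_STAB`, `S_ENT`, `S_PT`). With `w_j = u_j / √q_j` and the growth of the Gaussian hazard rate this gives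
`∑_{j∈T} ((w_j v)_-)² ≈ ∑_j q_j ((w_j v)_-)²` for all unit vectors `v` (`S_BDD`, `S_CMP`). The sum of this for `v`
and `-v` shows that the `w_j`, `j ∈ T`, form nearly an orthonormal basis, and two orthonormal bases with the same
function `∑ ((w_j v)_-)²` are equal up to their order, as an orthogonal matrix with nonnegative entries is a
permutation matrix (`S_ORT`). So all the `N` vectors `w_j` are close to the vectors of one orthonormal basis, and the
sets `T` are transversals of the corresponding partition of the `N` vectors into `K` blocks (`S_TRV`). Then the `q_j`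
of each block have the sum one, and `log Z ≤ (1/2) ∑ q_j log (1 / q_j) ≤ (1/2) ∑ log (block size) ≤ log √bal`
(`S_CNT`, `S_BAL`).

Equality. If `Z = √bal` then all these inequalities are equalities, the terms of all `T` agree with their geometric mean
everywhere, so that the `w_j` are exactly the vectors of an orthonormal basis, and the blocks are balanced
(`main_eq_x`). Then `|x_i - x_j|² = 2` for `i`, `j` in one block, so the subspace contains the differences of the
vertices of a block. So the maximal projections are exactly those to the spaces `W` of the balanced partitions.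

The modules were written by helper2 (STAB), helper26 (BAL), helper29 (FBD), helper32 (ORT), helper37 (ENT), helper52
(CMP), helper53 (CNT), helper57 (BDD), helper59 (PT), helper88 (TRV), and the explicit forms by helper2 (CMX), helper9 (BDX), helper32 (NUM), helper37 (ENX), helper25 (ORX; also
helper52 and helper29), helper57 (TRX), helper59 (PTX); the equality case by helper9 (BEQ), helper39 (CEQ), helper99
(GEQ); the entropy inequality and the geometric part
are those of helper58 and of the library (Filliman's first conjecture and the case `n ≤ 2k + 1` of the second).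
-/

open MeasureTheory
open scoped ENNReal

universe u

namespace Pool.Agent.Results.MP_3bca80_gt.AllLargeDimensions

/-- `v` lists the vertices of a regular simplex of edge length `√2`. -/
def IsRegularSimplex {V : Type u} [NormedAddCommGroup V] {n : ℕ} (v : Fin (n + 1) → V) : Prop :=
  ∀ i j, i ≠ j → dist (v i) (v j) = √2

/-- The span `W` of all differences of vertices lying in a common block. -/
def blockSpan {V : Type u} [NormedAddCommGroup V] [InnerProductSpace ℝ V] {n k : ℕ}
    (v : Fin (n + 1) → V) (p : Fin (n + 1) → Fin (k + 1)) : Submodule ℝ V :=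
  Submodule.span ℝ {x | ∃ i j, p i = p j ∧ x = v i - v j}

/-- The `d`-dimensional volume of the orthogonal projection of `K` onto the subspace `F`.
Here `μHE[d]` is Mathlib's `d`-dimensional Hausdorff measure, normalised so that it is Lebesgue
measure on `d`-dimensional Euclidean spaces, and `F.starProjection` is the orthogonal
projection onto `F`. -/
noncomputable def projVol {V : Type u} [NormedAddCommGroup V] [InnerProductSpace ℝ V]
    [FiniteDimensional ℝ V] [MeasurableSpace V] [BorelSpace V]
    (d : ℕ) (F : Submodule ℝ V) (K : Set V) : ℝ≥0∞ :=
  μHE[d] (F.starProjection '' K)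

/-- The number of vertices in the block `a`. -/
def blockSize {n k : ℕ} (p : Fin (n + 1) → Fin (k + 1)) (a : Fin (k + 1)) : ℕ :=
  (Finset.univ.filter (fun i => p i = a)).card

/-- `p` assigns the `n + 1` vertices to `k + 1` blocks and every block has size `ℓ` or `ℓ + 1`,
where `ℓ` is the integer part of `(n + 1) / (k + 1)`. -/
def IsBalanced {n k : ℕ} (p : Fin (n + 1) → Fin (k + 1)) : Prop :=
  ∀ a, blockSize p a = (n + 1) / (k + 1) ∨ blockSize p a = (n + 1) / (k + 1) + 1

/-- **Filliman's second conjecture for every `k` and all large `n`.** Let `k ≥ 1` and `n ≥ exp (10³⁴ (k + 1)²⁰)`, let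
`Δ` be a regular simplex with `n + 1` vertices and edge length `√2` in an `n`-dimensional Euclidean space `V`, and let
`W` be the span of the differences inside the blocks of a balanced partition of the vertices into `k + 1` blocks. Then
`dim W = n - k`, and `vol (P_F Δ) ≤ vol (P_W Δ)` for every subspace `F` of dimension `n - k`, with equality if and only if
`F` is the span of the differences inside the blocks of a balanced partition. -/
theorem result {V : Type u} [NormedAddCommGroup V] [InnerProductSpace ℝ V] [FiniteDimensional ℝ V]
    [MeasurableSpace V] [BorelSpace V] (n k : ℕ) (_hk : 1 ≤ k)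
    (hn : Real.exp (10 ^ 34 * ((k : ℝ) + 1) ^ 20) ≤ n) (hV : Module.finrank ℝ V = n)
    (v : Fin (n + 1) → V) (hv : IsRegularSimplex v)
    (p : Fin (n + 1) → Fin (k + 1)) (hp : IsBalanced p) :
    k ≤ n ∧ Module.finrank ℝ (blockSpan v p) = n - k ∧
      ∀ F : Submodule ℝ V, Module.finrank ℝ F = n - k →
        projVol (n - k) F (convexHull ℝ (Set.range v)) ≤
          projVol (n - k) (blockSpan v p) (convexHull ℝ (Set.range v)) ∧
        (projVol (n - k) F (convexHull ℝ (Set.range v)) =
            projVol (n - k) (blockSpan v p) (convexHull ℝ (Set.range v)) ↔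
          ∃ p' : Fin (n + 1) → Fin (k + 1), IsBalanced p' ∧ F = blockSpan v p') := by
  have hkn : k ≤ n := by
    have h1 := Real.add_one_le_exp (10 ^ 34 * ((k : ℝ) + 1) ^ 20)
    have h2 : ((k : ℝ) + 1) ≤ ((k : ℝ) + 1) ^ 20 := by
      have h3 : (1 : ℝ) ≤ (k : ℝ) + 1 := by linarith [Nat.cast_nonneg (α := ℝ) k]
      exact le_self_pow₀ h3 (by norm_num)
    have h4 : (k : ℝ) ≤ n := by nlinarith [Nat.cast_nonneg (α := ℝ) k]
    exact_mod_cast h4
  refine ⟨hkn, ?_⟩
  have hn1 : Real.exp (10 ^ 34 * ((k + 1 : ℕ) : ℝ) ^ 20) ≤ ((n + 1 : ℕ) : ℝ) := by
    push_cast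
    linarith
  have hstar : ∀ p : Fin (n + 1) → Fin (k + 1), IsBalanced p →
      Module.finrank ℝ (blockSpan v p) = n - k ∧
      projVol (n - k) (blockSpan v p) (convexHull ℝ (Set.range v)) =
        ENNReal.ofReal (√(Pool.Agent.Helper10.AQ.bal (n + 1) (k + 1) : ℝ) /
          (n - k).factorial) := by
    intro p hp
    have hsurj : Function.Surjective p := by
      have hl : 1 ≤ (n + 1) / (k + 1) := Nat.div_pos (by omega) (by omega)
      intro a
      have h3 : 0 < (Finset.univ.filter (fun i => p i = a)).card := by
        rcases hp a with h | h <;> (unfold blockSize at h; omega)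
      obtain ⟨i, hi⟩ := Finset.card_pos.mp h3
      exact ⟨i, (Finset.mem_filter.mp hi).2⟩
    have h2 : Module.finrank ℝ (blockSpan v p) = n - k ∧
        projVol (n - k) (blockSpan v p) (convexHull ℝ (Set.range v)) =
          ENNReal.ofReal (√(∏ a, (blockSize p a : ℝ)) / (n - k).factorial) :=
      Pool.Agent.Helper58.FU.proj_star' hkn hV v hv p hsurj
    have h4 : ∏ a, blockSize p a = Pool.Agent.Helper10.AQ.bal (n + 1) (k + 1) :=
      Pool.Agent.Helper10.AQ.prod_bs hkn p hp
    refine ⟨h2.1, ?_⟩
    rw [h2.2, ← Nat.cast_prod, h4]
  have h2 := hstar p hp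
  refine ⟨h2.1, fun F hF => ⟨?_, ?_, ?_⟩⟩
  · rw [h2.2]
    exact Pool.Agent.Helper10.AQ.proj_large' hkn hV v hv F hF fun x hx hx0 =>
      Pool.Agent.Helper10.AQ.hull_x (k + 1) (by omega) (n + 1) (n - k) hn1 (by omega) x hx hx0
  · intro heq
    rw [h2.2] at heq
    exact Pool.Agent.Helper10.AQ.eq_case hkn hn1 hV v hv F hF heq.ge
  · rintro ⟨p', hp', rfl⟩
    rw [h2.2, (hstar p' hp').2]

end Pool.Agent.Results.MP_3bca80_gt.AllLargeDimensions
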