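import Pool.Agent.Helper97.FLC.Geo

/-!
# Filliman's second conjecture: the projection `T^*` is a local maximum for all `(n, k)`, and classes of vertices

Let `Δ` be a regular simplex with `n + 1` vertices and edge length `√2`, `1 ≤ k ≤ n`, and let `W` be the span of the
differences inside the blocks of a balanced partition of the vertices into `k + 1` blocks, `T^* = P_W Δ`. Filliman's second
conjecture says that `vol (P_F Δ) ≤ vol T^*` for every subspace `F` of dimension `n - k`.

* For ALL `1 ≤ k ≤ n` this holds for all `F` with `‖P_F - P_W‖ ≤ 1 / (n + 1)`.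
* It holds for every `F` for which the vertices can be divided into classes `A_1, …, A_r` of sizes `n_1, …, n_r`, with
  divisors `κ_i` of `n_i` and `∑ κ_i = k + 1`, such that no facet simplex of `P_F Δ` has more than `n_i - κ_i` vertices in
  `A_i`. (One class: the case in which `k + 1` divides `n + 1`, without any condition on `F`. All `κ_i = 1`: no facet of
  `P_F Δ` contains a class, for instance all polytopes of the combinatorial type of `T^*`.)
* Without the divisibility the volume is at most `∏ (n_i / κ_i) ^ (κ_i / 2) / (n - k)!`.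

The proof uses the entropy inequality `SD_entropy` of helper58 (hand-in `MaximalDivisible`): if `q_j` is the probability
that the vertex `j` does not belong to a random facet simplex, chosen with probability proportional to the volume of the
simplex over it, then `(n - k)! vol (P_F Δ) ≤ ∏ q_j ^ (-q_j / 2)`. Here the sum of the `q_j` over `A_i` is `κ_i`.
-/

set_option autoImplicit false

open MeasureTheory
open scoped ENNReal

namespace Pool.Agent.Results.MP_3bca80_gt.LocalMaximum

/-- `v` lists the vertices of a regular simplex of edge length `√2`. -/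
def IsRegularSimplex {V : Type*} [NormedAddCommGroup V] {n : ℕ} (v : Fin (n + 1) → V) : Prop :=
  ∀ i j, i ≠ j → dist (v i) (v j) = √2

/-- The span `W` of all differences of vertices lying in a common block. -/
def blockSpan {V : Type*} [NormedAddCommGroup V] [InnerProductSpace ℝ V] {n k : ℕ}
    (v : Fin (n + 1) → V) (p : Fin (n + 1) → Fin (k + 1)) : Submodule ℝ V :=
  Submodule.span ℝ {x | ∃ i j, p i = p j ∧ x = v i - v j}

/-- The `d`-dimensional volume of the orthogonal projection of `K` onto the subspace `F`.
Here `μHE[d]` is Mathlib's `d`-dimensional Hausdorff measure, normalised so that it is Lebesgue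
measure on `d`-dimensional Euclidean spaces, and `F.starProjection` is the orthogonal
projection onto `F`. -/
noncomputable def projVol {V : Type*} [NormedAddCommGroup V] [InnerProductSpace ℝ V]
    [FiniteDimensional ℝ V] [MeasurableSpace V] [BorelSpace V]
    (d : ℕ) (F : Submodule ℝ V) (K : Set V) : ℝ≥0∞ :=
  μHE[d] (F.starProjection '' K)

/-- The number of vertices in the class `i`. -/
def classSize {n r : ℕ} (A : Fin (n + 1) → Fin r) (i : Fin r) : ℕ :=
  (Finset.univ.filter (fun j => A j = i)).card

/-- `p` assigns the `n + 1` vertices to `k + 1` blocks and every block has size `ℓ` or `ℓ + 1`,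
where `ℓ` is the integer part of `(n + 1) / (k + 1)`. -/
def IsBalanced {n k : ℕ} (p : Fin (n + 1) → Fin (k + 1)) : Prop :=
  ∀ a, classSize p a = (n + 1) / (k + 1) ∨ classSize p a = (n + 1) / (k + 1) + 1

/-- The centroid `c` of the simplex. -/
noncomputable def centre {V : Type*} [NormedAddCommGroup V] [InnerProductSpace ℝ V] {n : ℕ}
    (v : Fin (n + 1) → V) : V := ((n : ℝ) + 1)⁻¹ • ∑ j, v j

/-- The family `I` of `m` vertices (`m = dim F` below) is a facet simplex of the projection of the simplex to `F`: the
projections of the vectors `v (I a) - c` are linearly independent, and a supporting hyperplane of the projection contains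
the projections of all the vertices `v (I a)`: there is `w ∈ F` with `⟪w, v j - c⟫ ≤ 1` for all `j`, with equality for
`j = I a`. -/
def IsFacetSimplex {V : Type*} [NormedAddCommGroup V] [InnerProductSpace ℝ V]
    [FiniteDimensional ℝ V] {n m : ℕ} (v : Fin (n + 1) → V) (F : Submodule ℝ V)
    (I : Fin m → Fin (n + 1)) : Prop :=
  LinearIndependent ℝ (fun a => F.starProjection (v (I a) - centre v)) ∧
    ∃ w ∈ F, (∀ j, inner ℝ w (v j - centre v) ≤ 1) ∧ ∀ a, inner ℝ w (v (I a) - centre v) = 1

/-- The number of members of the family `I` in the class `i`. -/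
def inClass {n m r : ℕ} (A : Fin (n + 1) → Fin r) (I : Fin m → Fin (n + 1)) (i : Fin r) : ℕ :=
  (Finset.univ.filter (fun a => A (I a) = i)).card

/-- Filliman's second conjecture (maximal projections of the regular simplex): `T^*` is a local maximum for all `(n, k)`,
and the conjectured inequality for all projections with a suitable division of the vertices into classes.

Let `Δ` be a regular simplex with `n + 1` vertices and edge length `√2` in an `n`-dimensional Euclidean space, `1 ≤ k ≤ n`,
let `W` be the span of the differences inside the blocks of a balanced partition of the vertices into `k + 1` blocks. Then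
`dim W = n - k` and:

(1) `vol (P_F Δ) ≤ vol (P_W Δ)` for every `(n - k)`-dimensional subspace `F` with `‖P_F z - P_W z‖ ≤ ‖z‖ / (n + 1)` for all
`z`;

(2) let `F` be an `(n - k)`-dimensional subspace, `A` a division of the vertices into `r` classes of sizes `n_i`, and let
`κ_1 + ⋯ + κ_r = k + 1`, such that every facet simplex of `P_F Δ` has at most `n_i - κ_i` vertices in the class `i`, for all
`i`. Then `vol (P_F Δ) ≤ ∏ (n_i / κ_i) ^ (κ_i / 2) / (n - k)!`, and if `κ_i` divides `n_i` for all `i`, then
`vol (P_F Δ) ≤ vol (P_W Δ)`. -/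
theorem result {V : Type*} [NormedAddCommGroup V] [InnerProductSpace ℝ V] [FiniteDimensional ℝ V]
    [MeasurableSpace V] [BorelSpace V] (n k : ℕ) (hV : Module.finrank ℝ V = n)
    (_hk : 1 ≤ k) (hkn : k ≤ n) (v : Fin (n + 1) → V) (hv : IsRegularSimplex v)
    (p : Fin (n + 1) → Fin (k + 1)) (hp : IsBalanced p) :
    Module.finrank ℝ (blockSpan v p) = n - k ∧
    (∀ F : Submodule ℝ V, Module.finrank ℝ F = n - k →
      (∀ z : V, ‖F.starProjection z - (blockSpan v p).starProjection z‖ ≤ ‖z‖ / ((n : ℝ) + 1)) →
      projVol (n - k) F (convexHull ℝ (Set.range v)) ≤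
        projVol (n - k) (blockSpan v p) (convexHull ℝ (Set.range v))) ∧
    (∀ F : Submodule ℝ V, Module.finrank ℝ F = n - k →
      ∀ (r : ℕ) (A : Fin (n + 1) → Fin r) (κ : Fin r → ℕ), ∑ i, κ i = k + 1 →
      (∀ I : Fin (n - k) → Fin (n + 1), IsFacetSimplex v F I →
        ∀ i, inClass A I i + κ i ≤ classSize A i) →
      projVol (n - k) F (convexHull ℝ (Set.range v)) ≤
        ENNReal.ofReal (√(∏ i, ((classSize A i : ℝ) / κ i) ^ κ i) / (n - k).factorial) ∧
      ((∀ i, κ i ∣ classSize A i) →
        projVol (n - k) F (convexHull ℝ (Set.range v)) ≤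
          projVol (n - k) (blockSpan v p) (convexHull ℝ (Set.range v)))) := by
  classical
  have hsurj : Function.Surjective p := by
    have hl : 1 ≤ (n + 1) / (k + 1) := Nat.div_pos (by omega) (by omega)
    intro a
    have h3 : 0 < (Finset.univ.filter (fun i => p i = a)).card := by
      rcases hp a with h | h <;> (unfold classSize at h; omega)
    obtain ⟨i, hi⟩ := Finset.card_pos.mp h3
    exact ⟨i, (Finset.mem_filter.mp hi).2⟩
  have h2 : Module.finrank ℝ (blockSpan v p) = n - k ∧
      projVol (n - k) (blockSpan v p) (convexHull ℝ (Set.range v)) =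
        ENNReal.ofReal (√(∏ a, (classSize p a : ℝ)) / (n - k).factorial) :=
    Pool.Agent.Helper58.FU.proj_star' hkn hV v hv p hsurj
  have hcsum : ∀ {r : ℕ} (A : Fin (n + 1) → Fin r), ∑ i, classSize A i = n + 1 := by
    intro r A
    unfold classSize
    rw [← Finset.card_eq_sum_card_fiberwise (fun a _ => Finset.mem_univ _)]
    simp
  have hmain : ∀ F : Submodule ℝ V, Module.finrank ℝ F = n - k →
      ∀ (r : ℕ) (A : Fin (n + 1) → Fin r) (κ : Fin r → ℕ), ∑ i, κ i = k + 1 →
      (∀ I : Fin (n - k) → Fin (n + 1), IsFacetSimplex v F I →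
        ∀ i, inClass A I i + κ i ≤ classSize A i) →
      projVol (n - k) F (convexHull ℝ (Set.range v)) ≤
        ENNReal.ofReal (√(∏ i, ((classSize A i : ℝ) / κ i) ^ κ i) / (n - k).factorial) ∧
      ((∀ i, κ i ∣ classSize A i) →
        projVol (n - k) F (convexHull ℝ (Set.range v)) ≤
          projVol (n - k) (blockSpan v p) (convexHull ℝ (Set.range v))) := by
    intro F hF r A κ hκ hc
    have h1 : projVol (n - k) F (convexHull ℝ (Set.range v)) ≤
        ENNReal.ofReal (√(∏ i, ((classSize A i : ℝ) / κ i) ^ κ i) / (n - k).factorial) :=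
      Pool.Agent.Helper97.FLC.proj_class hkn hV v hv F hF A κ hκ hc
    refine ⟨h1, fun hdiv => h1.trans ?_⟩
    rw [h2.2]
    apply ENNReal.ofReal_le_ofReal
    apply div_le_div_of_nonneg_right _ (by positivity)
    apply Real.sqrt_le_sqrt
    have h3 : ∀ i, ((classSize A i : ℝ) / κ i) ^ κ i = ((classSize A i / κ i : ℕ) : ℝ) ^ κ i := by
      intro i
      rcases Nat.eq_zero_or_pos (κ i) with h0 | h0
      · rw [h0, pow_zero, pow_zero]
      · rw [Nat.cast_div (hdiv i) (by exact_mod_cast h0.ne')]
    rw [Finset.prod_congr rfl (fun i _ => h3 i)]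
    refine Pool.Agent.Helper97.FLC.balanced_max (N := n + 1) (K := k + 1) (by omega) (by omega)
      (fun a => classSize p a) hp (hcsum p) (fun i => classSize A i / κ i) κ hκ ?_
    rw [← hcsum A]
    exact Finset.sum_congr rfl fun i _ => Nat.mul_div_cancel' (hdiv i)
  refine ⟨h2.1, fun F hF hnear => ?_, hmain⟩
  refine (hmain F hF (k + 1) p (fun _ => 1) (by simp) ?_).2 (fun i => one_dvd _)
  intro I hI a
  obtain ⟨j, hj, hIj⟩ := Pool.Agent.Helper97.FLC.near_block hV v hv p F hnear I hI a (hsurj a)
  have hinj : Function.Injective I := by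
    intro x y hxy
    apply hI.1.injective
    show F.starProjection (v (I x) - centre v) = F.starProjection (v (I y) - centre v)
    rw [hxy]
  unfold inClass classSize
  have h5 : ((Finset.univ.filter (fun b => p (I b) = a)).image I) ⊂
      Finset.univ.filter (fun i => p i = a) := by
    rw [Finset.ssubset_iff_of_subset]
    · refine ⟨j, by simp [hj], ?_⟩
      intro hj'
      obtain ⟨c, -, hc⟩ := Finset.mem_image.1 hj'
      exact hIj c hc
    · intro i hi
      obtain ⟨c, hc1, hc2⟩ := Finset.mem_image.1 hi
      rw [← hc2]
      simp only [Finset.mem_filter, Finset.mem_univ, true_and] at hc1 ⊢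
      exact hc1
  have h6 := Finset.card_lt_card h5
  rw [Finset.card_image_of_injective _ hinj] at h6
  omega

end Pool.Agent.Results.MP_3bca80_gt.LocalMaximum
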