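import Pool.Agent.Helper58.FU.Geo

open MeasureTheory
open scoped ENNReal

namespace Pool.Agent.Results.MP_3bca80_gt.MaximalDivisible

/-- `v` lists the vertices of a regular simplex of edge length `√2`. -/
def IsRegularSimplex {V : Type*} [NormedAddCommGroup V] {n : ℕ} (v : Fin (n + 1) → V) : Prop :=
  ∀ i j, i ≠ j → dist (v i) (v j) = √2

/-- The span `W` of all differences of vertices lying in a common block. -/
def blockSpan {V : Type*} [NormedAddCommGroup V] [InnerProductSpace ℝ V] {n k : ℕ}
    (v : Fin (n + 1) → V) (p : Fin (n + 1) → Fin (k + 1)) : Submodule ℝ V :=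
  Submodule.span ℝ {x | ∃ i j, p i = p j ∧ x = v i - v j}

/-- The `d`-dimensional volume of the orthogonal projection of `K` onto the subspace `F`.
Here `μHE[d]` is Mathlib's `d`-dimensional Hausdorff measure, normalised so that it is Lebesgue
measure on `d`-dimensional Euclidean spaces, and `F.starProjection` is the orthogonal
projection onto `F`. -/
noncomputable def projVol {V : Type*} [NormedAddCommGroup V] [InnerProductSpace ℝ V]
    [FiniteDimensional ℝ V] [MeasurableSpace V] [BorelSpace V]
    (d : ℕ) (F : Submodule ℝ V) (K : Set V) : ℝ≥0∞ :=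
  μHE[d] (F.starProjection '' K)

/-- The number of vertices in the block `a`. -/
def blockSize {n k : ℕ} (p : Fin (n + 1) → Fin (k + 1)) (a : Fin (k + 1)) : ℕ :=
  (Finset.univ.filter (fun i => p i = a)).card

/-- `p` assigns the `n + 1` vertices to `k + 1` blocks and every block has size `ℓ` or `ℓ + 1`,
where `ℓ` is the integer part of `(n + 1) / (k + 1)`. -/
def IsBalanced {n k : ℕ} (p : Fin (n + 1) → Fin (k + 1)) : Prop :=
  ∀ a, blockSize p a = (n + 1) / (k + 1) ∨ blockSize p a = (n + 1) / (k + 1) + 1

/-- Filliman's second conjecture (maximal projections of the regular simplex) for all pairs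
`(n, k)` such that `k + 1` divides `n + 1`, as the case `r = 0` of an inequality for all pairs.

Let `Δ` be a regular simplex with `n + 1` vertices and edge length `√2` in an `n`-dimensional
Euclidean space, let `1 ≤ k ≤ n` and write `n + 1 = (k + 1) ℓ + r` with `0 ≤ r ≤ k`. Let `W` be the
span of the differences inside the blocks of a balanced partition of the vertices into `k + 1`
blocks, and `T^* = P_W Δ`. Then `dim W = n - k`, and every `(n - k)`-dimensional orthogonal
projection of `Δ` satisfies `vol (P_F Δ) ≤ exp (r (k + 1 - r) / (4 (k + 1) ℓ²)) * vol T^*`.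
If `k + 1` divides `n + 1`, the factor is `1`: `vol (P_F Δ) ≤ vol T^*`, which is the conjecture for
the pair `(n, k)`. -/
theorem result {V : Type*} [NormedAddCommGroup V] [InnerProductSpace ℝ V] [FiniteDimensional ℝ V]
    [MeasurableSpace V] [BorelSpace V] (n k : ℕ) (hV : Module.finrank ℝ V = n)
    (_hk : 1 ≤ k) (hkn : k ≤ n) (v : Fin (n + 1) → V) (hv : IsRegularSimplex v)
    (p : Fin (n + 1) → Fin (k + 1)) (hp : IsBalanced p) :
    Module.finrank ℝ (blockSpan v p) = n - k ∧
    (∀ F : Submodule ℝ V, Module.finrank ℝ F = n - k →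
      projVol (n - k) F (convexHull ℝ (Set.range v)) ≤
        ENNReal.ofReal (Real.exp ((((n + 1) % (k + 1) : ℕ) : ℝ) *
          ((k + 1 : ℝ) - ((n + 1) % (k + 1) : ℕ)) /
          (4 * (k + 1) * (((n + 1) / (k + 1) : ℕ) : ℝ) ^ 2))) *
        projVol (n - k) (blockSpan v p) (convexHull ℝ (Set.range v))) ∧
    ((k + 1) ∣ (n + 1) → ∀ F : Submodule ℝ V, Module.finrank ℝ F = n - k →
      projVol (n - k) F (convexHull ℝ (Set.range v)) ≤
        projVol (n - k) (blockSpan v p) (convexHull ℝ (Set.range v))) := by
  have h1 : ∀ F : Submodule ℝ V, Module.finrank ℝ F = n - k →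
      projVol (n - k) F (convexHull ℝ (Set.range v)) ≤
        ENNReal.ofReal (√(((n : ℝ) + 1) / (k + 1)) ^ (k + 1) / (n - k).factorial) :=
    fun F hF => Pool.Agent.Helper58.FU.proj_le' hkn hV v hv F hF
  have hsurj : Function.Surjective p := by
    have hl : 1 ≤ (n + 1) / (k + 1) := Nat.div_pos (by omega) (by omega)
    intro a
    have h3 : 0 < (Finset.univ.filter (fun i => p i = a)).card := by
      rcases hp a with h | h <;> (unfold blockSize at h; omega)
    obtain ⟨i, hi⟩ := Finset.card_pos.mp h3
    exact ⟨i, (Finset.mem_filter.mp hi).2⟩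
  have h2 : Module.finrank ℝ (blockSpan v p) = n - k ∧
      projVol (n - k) (blockSpan v p) (convexHull ℝ (Set.range v)) =
        ENNReal.ofReal (√(∏ a, (blockSize p a : ℝ)) / (n - k).factorial) :=
    Pool.Agent.Helper58.FU.proj_star' hkn hV v hv p hsurj
  have h3 : ∀ F : Submodule ℝ V, Module.finrank ℝ F = n - k →
      projVol (n - k) F (convexHull ℝ (Set.range v)) ≤
        ENNReal.ofReal (Real.exp ((((n + 1) % (k + 1) : ℕ) : ℝ) *
          ((k + 1 : ℝ) - ((n + 1) % (k + 1) : ℕ)) /
          (4 * (k + 1) * (((n + 1) / (k + 1) : ℕ) : ℝ) ^ 2))) *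
        projVol (n - k) (blockSpan v p) (convexHull ℝ (Set.range v)) := by
    intro F hF
    rw [h2.2, ← ENNReal.ofReal_mul (Real.exp_pos _).le]
    refine (h1 F hF).trans (ENNReal.ofReal_le_ofReal ?_)
    rw [← mul_div_assoc]
    exact div_le_div_of_nonneg_right (Pool.Agent.Helper58.FU.balanced_log hkn p hp)
      (by positivity)
  refine ⟨h2.1, h3, ?_⟩
  intro hdvd F hF
  have h4 := h3 F hF
  have h5 : (n + 1) % (k + 1) = 0 := Nat.mod_eq_zero_of_dvd hdvd
  rw [h5] at h4
  simpa using h4

end Pool.Agent.Results.MP_3bca80_gt.MaximalDivisible
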